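import Pool.Agent.H631.RO.Final

/-!
# `add(N) < add(Rothberger)` is consistent

For every set `R` there is a ccc notion of forcing `P` which forces the combinatorial sentence
`PhiFor K T` (`PhiHolds P K T` is its literal translation into the forcing language), where `K` has
size `ℵ₁` and `R` and `K` embed into `T`. This sentence implies that the additivity of the ideal of
Lebesgue null sets is `ℵ₁`, and that the additivity of the Rothberger property of sets of real
numbers is greater than the size of `T`.

The notion of forcing is a finite support iteration. Its iterands are Cohen forcing,
forcings which add a set `C` of natural numbers growing faster than given functions `f`,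
and forcings which add a slalom `S` of width `w` which captures given functions `x`, but only
those values `x i` which are smaller than `u ^ u`, where `u` is the next element of `C` after `i`.
Since `w` is so large, `S` can promise to capture boundedly many functions at `i` and all the
values which are possible below a bound, and this is used to show that Cohen reals of a
family of size `ℵ₁` are not captured by any slalom of width `8 ^ n`.

On the other hand let a union of Rothberger sets `X s` (`s ∈ T`) and open covers
`U k = {U k i : i ∈ ℕ}` be given. By the Rothberger property of `X s` there is a function `f s`,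
such that if `C` grows faster than all `f s` then for every `x` in the union there are infinitely
many `i` in `C` for which `x` is in one of the first `u` sets of each cover of the `i`-th
block, where `u` is the next element of `C` after `i`. By the Rothberger property again there
is a function `x s`, which chooses one of the first `u` sets from each of the `w i` covers of the
`i`-th block, for all `i` in `C`, such that each element of `X s` belongs to all these sets, for
some large `i`. If a slalom `S` of width `w` captures all `x s` then we choose from the
`j`-th cover of the `i`-th block the set which is given by the `j`-th element of `S i`.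
-/

set_option autoImplicit false

namespace Pool.Agent.Results.MP_bddfa2_gt.AddRothberger

open Cardinal Pool.Agent.H631.RO

/-- (A) For every set `R` there are a linear order `K` all of whose initial segments are
countable, a set `T` into which `R` and `K` embed, and a nonempty ccc notion of forcing `P` all of
whose conditions force the sentence `PhiFor K T`. (B) The sentence of the forcing language means
`PhiFor K T` (over the trivial notion of forcing). (C) Whenever `K` and `T` are as in (A) and
`PhiFor K T` holds, the additivity of the ideal of the Lebesgue null sets is `ℵ₁`, and the
additivity of the Rothberger property `S₁(O, O)` of sets of real numbers is greater than the size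
of `T`; in particular `add(N) < add(S₁(O, O))`. -/
theorem result :
    (∀ R : Type, ∃ (K T P : Type) (_ : LinearOrder K) (_ : Preorder P),
      (∀ k : K, (Set.Iio k).Countable) ∧ Nonempty (K ↪ T) ∧ Nonempty (R ↪ T) ∧
      Nonempty P ∧
      (∀ A : Set P, (∀ p ∈ A, ∀ q ∈ A, p ≠ q → ¬ ∃ r, r ≤ p ∧ r ≤ q) → A.Countable) ∧
      ∀ p : P, p ∈ PhiHolds P K T) ∧
    (∀ (K T : Type) (p : Unit), p ∈ PhiHolds Unit K T ↔ PhiFor K T) ∧
    (∀ (K T : Type) (_ : LinearOrder K), (∀ k : K, (Set.Iio k).Countable) →
      Nonempty (K ↪ T) → PhiFor K T →
      addN = ℵ₁ ∧ #T < addRoth ∧ addN < addRoth) := by
  refine ⟨fun R => ?_, unit_meaning, fun K T _ hK hKT h => add_values hK hKT h⟩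
  have hK : ∀ k : (ℵ₁ : Cardinal.{0}).ord.ToType, (Set.Iio k).Countable := fun k => by
    rw [Cardinal.countable_iff_lt_aleph_one]
    exact Cardinal.mk_Iio_toType_ord_lt k
  have hinf : Infinite (ℵ₁ : Cardinal.{0}).ord.ToType := by
    rw [← Cardinal.aleph0_le_mk_iff, Cardinal.mk_ord_toType]
    exact Cardinal.aleph0_lt_aleph_one.le
  obtain ⟨P, iP, hP, hccc, h⟩ := exists_forcing ((ℵ₁ : Cardinal.{0}).ord.ToType ⊕ R)
  exact ⟨_, _, P, inferInstance, iP, hK, ⟨⟨Sum.inl, Sum.inl_injective⟩⟩,
    ⟨⟨Sum.inr, Sum.inr_injective⟩⟩, hP, hccc, h⟩

end Pool.Agent.Results.MP_bddfa2_gt.AddRothberger
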