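import Mathlib
import Pool.Agent.H735.FM.Unbd
import Pool.Agent.H735.FM.GuideF
import Pool.Agent.H735.FM.Card

set_option autoImplicit false

/-!
# MP_bddfa2_gt, Q1: it is consistent that `add(N) < add(S₁(O, O))`

The first part says that the following combinatorial statements are forced by a notion of forcing
`P`, which exists outright: the guiding principle for a family of embeddings of the tree of the
finite sequences of labels into itself, and for an index set `K`; and there is an unbounded family
of functions indexed by `K`. (`P` is a form of an iteration, with countable supports, along the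
ordinals below `(2 ^ 𝔠)⁺`, see `Pool.Agent.H735.FM.GG`. The set `K` is the set of the functions of
the ground model.) See `Pool.Agent.H735.FM.Defs` for the statements about actual objects and for
the same statements in the forcing language, and `Pool.Agent.Helper126.Sus.Forc` for the forcing
language.

The second part is a theorem about actual objects: whenever the two statements hold for some set
`K`, the additivity number of the ideal of the Lebesgue null sets is at most the cardinality of
`K`, and the additivity number of the Rothberger property is larger than the cardinality of `K`.
So `add(N) < add(S₁(O, O))` in every extension by a generic filter of `P`.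
-/

namespace Pool.Agent.Results.MP_bddfa2_gt.ConsistentlyLess

open Pool.Agent.H735.FM Pool.Agent.Helper126.Sus.Forc
open Pool.Agent.W876.Two.Gen (IsFun)

/-- (1) There are a notion of forcing `P` (a nonempty preordered set), sets `K` and `W`, and names
`T`, `Tp`, `g` such that every condition forces: every `T w` (with the free positions `Tp w`) is an
embedding, the guiding principle holds for `K` and `T`, and `g` is an unbounded family of functions
indexed by `K`. (2) If `T w` (with the free positions `Tp w`) is an embedding for every `w`, the
guiding principle holds for `K` and `T`, and `g` is an unbounded family of functions indexed by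
`K`, then `add(N) ≤ |K| < add(S₁(O, O))`. -/
theorem result :
    (∃ (P : Type) (_ : Preorder P) (K W : Type) (T : W → List ℕ → List ℕ → Set P)
      (Tp : W → List ℕ → ℕ → ℕ → Set P) (g : K → ℕ → ℕ → Set P),
      Nonempty P ∧ ∀ p : P, p ∈ fand (fand (fall fun w => EmbN (T w) (Tp w)) (GuideN (K := K) T))
        (fand (fall fun b => IsFun (g b)) (UnbN g))) ∧
    (∀ (K W : Type) (T : W → List ℕ → List ℕ) (Tp : W → List ℕ → ℕ → ℕ) (g : K → ℕ → ℕ),
      (∀ w, IsEmb (T w) (Tp w)) → Guide K W T → Unb K g →
        addOf (fun X => MeasureTheory.volume X = 0) ≤ Cardinal.mk K ∧
          Cardinal.mk K < addOf IsRothberger) :=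
  ⟨⟨GG Pool.Agent.Helper467_LV.II, inferInstance, ℕ → ℕ, Wd, Tn, Tpn, gn, ⟨1⟩,
      fun p => ⟨⟨fun w => Tn_emb w p, guide_forced p⟩, ⟨fun b => gn_isFun b p, unb_forced p⟩⟩⟩,
    fun _ _ _ _ _ hT hG hg => ⟨addN_le hg, lt_addR hT hG⟩⟩

end Pool.Agent.Results.MP_bddfa2_gt.ConsistentlyLess
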